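import Pool.Agent.Helper34.PU.Goals

/-!
MP_8060f4_co : packet BES (second moments of typical cell averages).
-/

set_option autoImplicit false

open Finset Function
open scoped Classical

namespace Pool.Agent.Helper82.PU

open Pool.Agent.Helper34.PU

section avglemmas

variable {α : Type} (B : Finset α)

lemma avg_add' (f g : α → ℝ) : avg B (fun i => f i + g i) = avg B f + avg B g := by
  simp only [avg, Finset.sum_add_distrib, add_div]

lemma avg_sub' (f g : α → ℝ) : avg B (fun i => f i - g i) = avg B f - avg B g := by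
  simp only [avg, Finset.sum_sub_distrib, sub_div]

lemma avg_smul' (c : ℝ) (f : α → ℝ) : avg B (fun i => c * f i) = c * avg B f := by
  simp only [avg, ← Finset.mul_sum, mul_div_assoc]

lemma avg_const' (hB : B.Nonempty) (c : ℝ) : avg B (fun _ => c) = c := by
  have : (B.card : ℝ) ≠ 0 := by
    have := hB.card_pos
    positivity
  simp only [avg, Finset.sum_const, nsmul_eq_mul]
  field_simp

lemma avg_sum' {ι : Type} (S : Finset ι) (f : ι → α → ℝ) :
    avg B (fun i => ∑ l ∈ S, f l i) = ∑ l ∈ S, avg B (f l) := by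
  simp only [avg]
  rw [Finset.sum_comm, Finset.sum_div]

lemma avg_mono' (f g : α → ℝ) (h : ∀ i ∈ B, f i ≤ g i) : avg B f ≤ avg B g := by
  simp only [avg]
  exact div_le_div_of_nonneg_right (Finset.sum_le_sum h) (by positivity)

lemma avg_congr' (f g : α → ℝ) (h : ∀ i ∈ B, f i = g i) : avg B f = avg B g := by
  simp only [avg]
  rw [Finset.sum_congr rfl h]

lemma avg_abs_le (hB : B.Nonempty) (f : α → ℝ) (c : ℝ) (h : ∀ i ∈ B, |f i| ≤ c) :
    |avg B f| ≤ c := by
  rw [abs_le]
  constructor
  · rw [← avg_const' B hB (-c)]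
    exact avg_mono' B _ _ (fun i hi => (abs_le.1 (h i hi)).1)
  · have := avg_mono' B f (fun _ => c) (fun i hi => (abs_le.1 (h i hi)).2)
    rwa [avg_const' B hB c] at this

end avglemmas

variable {T D N : ℕ}

lemma cell_congr (x : Fin N → Pt T D) (K : Finset (Fin T)) (a b : Pt T D)
    (h : ∀ t ∈ K, a t = b t) : cell x K a = cell x K b := by
  ext i
  simp only [cell, Finset.mem_filter, Finset.mem_univ, true_and]
  constructor
  · intro h1 t ht
    rw [h1 t ht, h t ht]
  · intro h1 t ht
    rw [h1 t ht, h t ht]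

/-- exchange of sums -/
lemma cell_sum (x : Fin N → Pt T D) (U K : Finset (Fin T)) (hUK : U ⊆ K) (a : Pt T D)
    (g w : Fin N → ℝ) (hw : ∀ i i', (∀ t ∈ K, x i t = x i' t) → w i = w i') :
    ∑ i ∈ cell x U a, w i * avg (cell x K (x i)) g = ∑ i ∈ cell x U a, w i * g i := by
  have h1 : ∀ i ∈ cell x U a, w i * avg (cell x K (x i)) g =
      ∑ i' ∈ cell x U a, if (∀ t ∈ K, x i' t = x i t) then
        w i' * g i' / ((cell x K (x i')).card : ℝ) else 0 := by
    intro i hi
    rw [← Finset.sum_filter]
    have h2 : (cell x U a).filter (fun i' => ∀ t ∈ K, x i' t = x i t) = cell x K (x i) := by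
      ext i'
      simp only [cell, Finset.mem_filter, Finset.mem_univ, true_and] at hi ⊢
      constructor
      · exact fun h => h.2
      · intro h
        exact ⟨fun t ht => by rw [h t (hUK ht), hi t ht], h⟩
    rw [h2, avg, Finset.sum_div, Finset.mul_sum]
    refine Finset.sum_congr rfl ?_
    intro i' hi'
    simp only [cell, Finset.mem_filter, Finset.mem_univ, true_and] at hi'
    rw [hw i' i hi', cell_congr x K (x i') (x i) hi']
    ring
  rw [Finset.sum_congr rfl h1, Finset.sum_comm]
  refine Finset.sum_congr rfl ?_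
  intro i' hi'
  rw [← Finset.sum_filter]
  have h3 : (cell x U a).filter (fun i => ∀ t ∈ K, x i' t = x i t) = cell x K (x i') := by
    ext i
    simp only [cell, Finset.mem_filter, Finset.mem_univ, true_and] at hi' ⊢
    constructor
    · exact fun h t ht => (h.2 t ht).symm
    · intro h
      exact ⟨fun t ht => by rw [h t (hUK ht), hi' t ht], fun t ht => (h t ht).symm⟩
  rw [h3, Finset.sum_const, nsmul_eq_mul]
  have h4 : ((cell x K (x i')).card : ℝ) ≠ 0 := by
    have : i' ∈ cell x K (x i') := by
      simp [cell]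
    have := Finset.card_pos.2 ⟨i', this⟩
    positivity
  field_simp

/-- independence in a block -/
lemma blk_indep (U J1 J2 : Finset (Fin T)) (a : Pt T D) (hJ : Disjoint J1 J2)
    (u v : Pt T D → ℝ) (hu : Dep (U ∪ J1) u) (hv : Dep (U ∪ J2) v) :
    avg (blk U a) (fun φ => u φ * v φ) = avg (blk U a) u * avg (blk U a) v := by
  have hne : (blk U a).Nonempty := ⟨a, by simp [blk]⟩
  have hc : ((blk U a).card : ℝ) ≠ 0 := by
    have := hne.card_pos
    positivity
  have key : ∑ p ∈ (blk U a) ×ˢ (blk U a), u p.1 * v p.1 =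
      ∑ p ∈ (blk U a) ×ˢ (blk U a), u p.2 * v p.1 := by
    refine Finset.sum_bij' (fun p _ => ((fun t => if t ∈ J1 then p.2 t else p.1 t),
      (fun t => if t ∈ J1 then p.1 t else p.2 t)))
      (fun p _ => ((fun t => if t ∈ J1 then p.2 t else p.1 t),
      (fun t => if t ∈ J1 then p.1 t else p.2 t))) ?_ ?_ ?_ ?_ ?_
    · intro p hp
      simp only [blk, Finset.mem_product, Finset.mem_filter, Finset.mem_univ, true_and] at hp ⊢
      constructor
      · intro t ht
        split_ifs
        · exact hp.2 t ht
        · exact hp.1 t ht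
      · intro t ht
        split_ifs
        · exact hp.1 t ht
        · exact hp.2 t ht
    · intro p hp
      simp only [blk, Finset.mem_product, Finset.mem_filter, Finset.mem_univ, true_and] at hp ⊢
      constructor
      · intro t ht
        split_ifs
        · exact hp.2 t ht
        · exact hp.1 t ht
      · intro t ht
        split_ifs
        · exact hp.1 t ht
        · exact hp.2 t ht
    · intro p hp
      refine Prod.ext ?_ ?_
      · funext t
        simp only
        split_ifs <;> rfl
      · funext t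
        simp only
        split_ifs <;> rfl
    · intro p hp
      refine Prod.ext ?_ ?_
      · funext t
        simp only
        split_ifs <;> rfl
      · funext t
        simp only
        split_ifs <;> rfl
    · intro p hp
      simp only [blk, Finset.mem_product, Finset.mem_filter, Finset.mem_univ, true_and] at hp
      simp only
      have e1 : u p.1 = u (fun t => if t ∈ J1 then p.1 t else p.2 t) := by
        apply hu
        intro t ht
        rcases Finset.mem_union.1 ht with h | h
        · by_cases h' : t ∈ J1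
          · simp [h']
          · simp only [h', if_false]
            rw [hp.1 t h, hp.2 t h]
        · simp [h]
      have e2 : v p.1 = v (fun t => if t ∈ J1 then p.2 t else p.1 t) := by
        apply hv
        intro t ht
        rcases Finset.mem_union.1 ht with h | h
        · by_cases h' : t ∈ J1
          · simp only [h', if_true]
            rw [hp.1 t h, hp.2 t h]
          · simp [h']
        · have : t ∉ J1 := fun h1 => (Finset.disjoint_left.1 hJ) h1 h
          simp [this]
      rw [e1, e2]
  rw [Finset.sum_product, Finset.sum_product] at key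
  simp only [Finset.sum_const, nsmul_eq_mul] at key
  have k2 : ∑ p ∈ blk U a, ∑ q ∈ blk U a, u q * v p =
      (∑ q ∈ blk U a, u q) * (∑ p ∈ blk U a, v p) := by
    rw [Finset.sum_mul_sum, Finset.sum_comm]
  rw [k2] at key
  simp only [avg]
  rw [← Finset.mul_sum] at key
  field_simp
  linarith

theorem bes (hPF : PFLibStmt) : BesStmt := by
  intro β k m T D N η x hm hη hη1 hPR hne U a J hUJ hJJ hβ hk g hg
  obtain ⟨pf1, pf2, -, -⟩ := hPF
  have l0 : Fin m := ⟨0, by omega⟩
  have hUβ : U.card ≤ β := le_trans (Finset.card_le_card Finset.subset_union_left) (hβ l0)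
  set B := cell x U a with hBdef
  have hB : B.Nonempty := hne U a hUβ
  have hbl : (blk U a).Nonempty := ⟨a, by simp [blk]⟩
  set u : Fin m → Pt T D → ℝ := fun l φ => avg (cell x (U ∪ J l) φ) g with hu
  set G := avg B g with hG
  have hG1 : |G| ≤ 1 := avg_abs_le B hB g 1 (fun i _ => hg i)
  have hu1 : ∀ l φ, |u l φ| ≤ 1 := fun l φ =>
    avg_abs_le _ (hne _ _ (hβ l)) g 1 (fun i _ => hg i)
  have hdep : ∀ l, Dep (U ∪ J l) (u l) := by
    intro l φ ψ h
    simp only [hu]
    rw [cell_congr x _ φ ψ h]
  have hdepx : ∀ l, ∀ i i', (∀ t ∈ U ∪ J l, x i t = x i' t) → u l (x i) = u l (x i') :=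
    fun l i i' h => hdep l _ _ h
  -- (i)
  have i1 : ∀ l, avg B (fun i => u l (x i)) = G := by
    intro l
    have := cell_sum x U (U ∪ J l) Finset.subset_union_left a g (fun _ => 1) (fun _ _ _ => rfl)
    simp only [one_mul] at this
    simp only [hG, avg]
    rw [← this]
  have i2 : ∀ l, avg B (fun i => g i * u l (x i)) = avg B (fun i => u l (x i) ^ 2) := by
    intro l
    have := cell_sum x U (U ∪ J l) Finset.subset_union_left a g (fun i => u l (x i)) (hdepx l)
    simp only [avg]
    congr 1
    calc ∑ i ∈ B, g i * u l (x i) = ∑ i ∈ B, u l (x i) * g i :=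
          Finset.sum_congr rfl (fun i _ => mul_comm _ _)
      _ = ∑ i ∈ B, u l (x i) * avg (cell x (U ∪ J l) (x i)) g := this.symm
      _ = ∑ i ∈ B, u l (x i) ^ 2 := Finset.sum_congr rfl (fun i _ => by
          simp only [hu]; ring)
  -- (ii)
  have pfu : ∀ l, PF β U (U ∪ J l) (u l) := fun l =>
    pf1 β T D U (U ∪ J l) (U ∪ J l) (u l) Finset.subset_union_left (Finset.Subset.refl _) (hβ l)
      (hu1 l) (hdep l)
  have pfuu : ∀ l l', PF β U (U ∪ J l ∪ J l') (fun φ => u l φ * u l' φ) := by
    intro l l'
    have := pf2 β T D U (U ∪ J l) (U ∪ J l') (u l) (u l') (pfu l) (pfu l')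
    have e : (U ∪ J l) ∪ (U ∪ J l') = U ∪ J l ∪ J l' := by
      ext t
      simp only [Finset.mem_union]
      tauto
    rwa [e] at this
  have ii1 : ∀ l, |G - avg (blk U a) (u l)| ≤ η := by
    intro l
    have := hPR U (U ∪ J l) a (u l) Finset.subset_union_left hUβ
      (le_trans (Finset.card_le_card Finset.subset_union_left) (hk l l)) (pfu l)
    rwa [i1 l] at this
  have ii2 : ∀ l l', |avg B (fun i => u l (x i) * u l' (x i)) -
      avg (blk U a) (fun φ => u l φ * u l' φ)| ≤ η := by
    intro l l'
    have hsub : U ⊆ U ∪ J l ∪ J l' :=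
      Finset.Subset.trans Finset.subset_union_left Finset.subset_union_left
    exact hPR U (U ∪ J l ∪ J l') a (fun φ => u l φ * u l' φ) hsub hUβ (hk l l') (pfuu l l')
  -- covariances
  have cov : ∀ l l', avg B (fun i => (u l (x i) - G) * (u l' (x i) - G)) =
      avg B (fun i => u l (x i) * u l' (x i)) - G ^ 2 := by
    intro l l'
    have e : avg B (fun i => (u l (x i) - G) * (u l' (x i) - G)) =
        avg B (fun i => (u l (x i) * u l' (x i) - G * u l (x i)) - (G * u l' (x i) - G * G)) :=
      avg_congr' B _ _ (fun i _ => by ring)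
    rw [e, avg_sub', avg_sub', avg_sub', avg_smul', avg_smul', avg_const' B hB, i1, i1]
    ring
  have covne : ∀ l l', l ≠ l' → avg B (fun i => (u l (x i) - G) * (u l' (x i) - G)) ≤ 4 * η := by
    intro l l' hll
    rw [cov]
    have h1 := (abs_le.1 (ii2 l l')).2
    rw [blk_indep U (J l) (J l') a (hJJ l l' hll) (u l) (u l') (hdep l) (hdep l')] at h1
    have h2 := abs_le.1 (ii1 l)
    have h3 := abs_le.1 (ii1 l')
    set p := avg (blk U a) (u l)
    set q := avg (blk U a) (u l')
    have h4 : |p - G| ≤ η := by rw [abs_sub_comm]; exact ii1 l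
    have h5 : |q - G| ≤ η := by rw [abs_sub_comm]; exact ii1 l'
    have h6 : p * q - G ^ 2 = (p - G) * (q - G) + G * (p - G) + G * (q - G) := by ring
    have h7 : (p - G) * (q - G) ≤ η := by
      calc (p - G) * (q - G) ≤ |(p - G) * (q - G)| := le_abs_self _
        _ = |p - G| * |q - G| := abs_mul _ _
        _ ≤ η * 1 := mul_le_mul h4 (le_trans h5 hη1) (abs_nonneg _) hη
        _ = η := mul_one _
    have h8 : G * (p - G) ≤ η := by
      calc G * (p - G) ≤ |G * (p - G)| := le_abs_self _
        _ = |G| * |p - G| := abs_mul _ _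
        _ ≤ 1 * η := mul_le_mul hG1 h4 (abs_nonneg _) zero_le_one
        _ = η := one_mul _
    have h9 : G * (q - G) ≤ η := by
      calc G * (q - G) ≤ |G * (q - G)| := le_abs_self _
        _ = |G| * |q - G| := abs_mul _ _
        _ ≤ 1 * η := mul_le_mul hG1 h5 (abs_nonneg _) zero_le_one
        _ = η := one_mul _
    linarith
  have coveq : ∀ l, avg B (fun i => (u l (x i) - G) * (u l (x i) - G)) ≤ 1 := by
    intro l
    rw [cov]
    have h1 : avg B (fun i => u l (x i) * u l (x i)) ≤ 1 := by
      have := avg_mono' B (fun i => u l (x i) * u l (x i)) (fun _ => 1) (fun i _ => by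
        have := abs_le.1 (hu1 l (x i))
        nlinarith [this.1, this.2])
      rwa [avg_const' B hB] at this
    nlinarith [sq_nonneg G]
  have hm0 : (0 : ℝ) < m := by exact_mod_cast (by omega : 0 < m)
  -- second moment of S
  set S : Fin N → ℝ := fun i => ∑ l, (u l (x i) - G) with hS
  have hS2 : avg B (fun i => S i ^ 2) ≤ m + 4 * η * (m : ℝ) ^ 2 := by
    have e : avg B (fun i => S i ^ 2) =
        ∑ l, ∑ l', avg B (fun i => (u l (x i) - G) * (u l' (x i) - G)) := by
      have : avg B (fun i => S i ^ 2) =
          avg B (fun i => ∑ l, ∑ l', (u l (x i) - G) * (u l' (x i) - G)) :=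
        avg_congr' B _ _ (fun i _ => by
          simp only [hS]
          rw [sq, Finset.sum_mul_sum])
      rw [this, avg_sum']
      refine Finset.sum_congr rfl (fun l _ => ?_)
      rw [avg_sum']
    rw [e]
    have h1 : ∀ l l' : Fin m, avg B (fun i => (u l (x i) - G) * (u l' (x i) - G)) ≤
        (if l = l' then 1 else 0) + 4 * η := by
      intro l l'
      by_cases h : l = l'
      · subst h
        simp only [if_true]
        linarith [coveq l]
      · simp only [h, if_false]
        linarith [covne l l' h]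
    calc ∑ l, ∑ l', avg B (fun i => (u l (x i) - G) * (u l' (x i) - G))
        ≤ ∑ l : Fin m, ∑ l' : Fin m, ((if l = l' then (1 : ℝ) else 0) + 4 * η) :=
          Finset.sum_le_sum (fun l _ => Finset.sum_le_sum (fun l' _ => h1 l l'))
      _ = m + 4 * η * (m : ℝ) ^ 2 := by
          simp only [Finset.sum_add_distrib, Finset.sum_ite_eq, Finset.mem_univ, if_true,
            Finset.sum_const, Finset.card_univ, Fintype.card_fin, nsmul_eq_mul]
          ring
  -- sum of variances
  have hvar : ∑ l, (avg B (fun i => u l (x i) ^ 2) - G ^ 2) = avg B (fun i => g i * S i) := by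
    have e : avg B (fun i => g i * S i) = ∑ l, avg B (fun i => g i * (u l (x i) - G)) := by
      rw [← avg_sum']
      exact avg_congr' B _ _ (fun i _ => by simp only [hS]; rw [Finset.mul_sum])
    rw [e]
    refine Finset.sum_congr rfl (fun l _ => ?_)
    have : avg B (fun i => g i * (u l (x i) - G)) =
        avg B (fun i => g i * u l (x i) - G * g i) := avg_congr' B _ _ (fun i _ => by ring)
    rw [this, avg_sub', avg_smul', i2]
    ring
  have hcs : avg B (fun i => g i * S i) ≤ √(m + 4 * η * (m : ℝ) ^ 2) := by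
    apply Real.le_sqrt_of_sq_le
    refine le_trans ?_ hS2
    have hc0 : (0 : ℝ) < B.card := by exact_mod_cast hB.card_pos
    have h1 := Finset.sum_mul_sq_le_sq_mul_sq B g S
    have h2 : ∑ i ∈ B, g i ^ 2 ≤ B.card := by
      calc ∑ i ∈ B, g i ^ 2 ≤ ∑ i ∈ B, (1 : ℝ) := Finset.sum_le_sum (fun i _ => by
            have := abs_le.1 (hg i)
            nlinarith [this.1, this.2])
        _ = B.card := by simp
    have h3 : 0 ≤ ∑ i ∈ B, S i ^ 2 := Finset.sum_nonneg (fun i _ => sq_nonneg _)
    simp only [avg]
    rw [div_pow, div_le_div_iff₀ (by positivity) hc0]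
    calc (∑ i ∈ B, g i * S i) ^ 2 * B.card
        ≤ ((∑ i ∈ B, g i ^ 2) * ∑ i ∈ B, S i ^ 2) * B.card :=
          mul_le_mul_of_nonneg_right h1 hc0.le
      _ ≤ (B.card * ∑ i ∈ B, S i ^ 2) * B.card :=
          mul_le_mul_of_nonneg_right (mul_le_mul_of_nonneg_right h2 h3) hc0.le
      _ = (∑ i ∈ B, S i ^ 2) * (B.card : ℝ) ^ 2 := by ring
  have hsq : √(m + 4 * η * (m : ℝ) ^ 2) = m * √(1 / m + 4 * η) := by
    have : (m : ℝ) + 4 * η * (m : ℝ) ^ 2 = (m : ℝ) ^ 2 * (1 / m + 4 * η) := by
      field_simp
    rw [this, Real.sqrt_mul (by positivity), Real.sqrt_sq hm0.le]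
  have hfin : ∀ l, avg (blk U a) (fun φ => (u l φ) ^ 2) ≤ avg B (fun i => u l (x i) ^ 2) + η := by
    intro l
    have h1 := (abs_le.1 (ii2 l l)).1
    have e1 : avg B (fun i => u l (x i) * u l (x i)) = avg B (fun i => u l (x i) ^ 2) :=
      avg_congr' B _ _ (fun i _ => by ring)
    have e2 : avg (blk U a) (fun φ => u l φ * u l φ) = avg (blk U a) (fun φ => (u l φ) ^ 2) :=
      avg_congr' _ _ _ (fun i _ => by ring)
    rw [e1, e2] at h1
    linarith
  have hsum : ∑ l, avg B (fun i => u l (x i) ^ 2) = m * G ^ 2 + avg B (fun i => g i * S i) := by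
    rw [← hvar, Finset.sum_sub_distrib]
    simp
  calc ∑ l, avg (blk U a) (fun φ => (u l φ) ^ 2)
      ≤ ∑ l : Fin m, (avg B (fun i => u l (x i) ^ 2) + η) :=
        Finset.sum_le_sum (fun l _ => hfin l)
    _ = m * G ^ 2 + avg B (fun i => g i * S i) + m * η := by
        rw [Finset.sum_add_distrib, hsum]
        simp
    _ ≤ m * G ^ 2 + m * √(1 / m + 4 * η) + m * η := by
        rw [← hsq]
        linarith
    _ = m * (G ^ 2 + (√(1 / m + 4 * η) + η)) := by ring

end Pool.Agent.Helper82.PU
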