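import Pool.Agent.Helper34.PU.Goals

/-!
MP_8060f4_co : packet TV (total variation of product measures).
-/

set_option autoImplicit false

open Finset Function
open scoped Classical

namespace Pool.Agent.Helper82.PU

open Pool.Agent.Helper34.PU

/-- law of the label -/
noncomputable def law {α Θ : Type} (A : Finset α) (lab : α → Θ) (ϑ : Θ) : ℝ :=
  avg A (fun z => if lab z = ϑ then 1 else 0)

lemma law_nonneg {α Θ : Type} (A : Finset α) (lab : α → Θ) (ϑ : Θ) : 0 ≤ law A lab ϑ := by
  unfold law avg
  apply div_nonneg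
  · apply Finset.sum_nonneg
    intro z _
    split_ifs <;> norm_num
  · positivity

lemma law_sum {α Θ : Type} [Fintype Θ] (A : Finset α) (hA : A.Nonempty) (lab : α → Θ) :
    ∑ ϑ : Θ, law A lab ϑ = 1 := by
  unfold law avg
  rw [← Finset.sum_div, Finset.sum_comm]
  have h : ∀ z ∈ A, (∑ ϑ : Θ, if lab z = ϑ then (1 : ℝ) else 0) = 1 := by
    intro z _
    simp
  rw [Finset.sum_congr rfl h]
  have : (A.card : ℝ) ≠ 0 := by
    have := hA.card_pos
    positivity
  simp only [Finset.sum_const, nsmul_eq_mul, mul_one]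
  field_simp

lemma push {ι α Θ : Type} [Fintype ι] [Fintype Θ] (A : ι → Finset α)
    (lab : ι → α → Θ) (ψ : (ι → Θ) → ℝ) :
    avg (Fintype.piFinset A) (fun y => ψ (fun i => lab i (y i))) =
      ∑ v : ι → Θ, (∏ i, law (A i) (lab i) (v i)) * ψ v := by
  have h1 : ∀ v : ι → Θ, (∏ i, law (A i) (lab i) (v i)) =
      (∑ y ∈ Fintype.piFinset A, if (fun i => lab i (y i)) = v then (1 : ℝ) else 0) /
        ((Fintype.piFinset A).card : ℝ) := by
    intro v
    unfold law avg
    rw [Finset.prod_div_distrib, Finset.prod_univ_sum, Fintype.card_piFinset]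
    push_cast
    congr 1
    refine Finset.sum_congr rfl ?_
    intro y _
    by_cases h : (fun i => lab i (y i)) = v
    · rw [if_pos h]
      apply Finset.prod_eq_one
      intro i _
      rw [if_pos (congrFun h i)]
    · rw [if_neg h]
      have : ∃ i, lab i (y i) ≠ v i := by
        by_contra hc
        push Not at hc
        exact h (funext hc)
      obtain ⟨i, hi⟩ := this
      exact Finset.prod_eq_zero (Finset.mem_univ i) (by rw [if_neg hi])
  have h2 : ∑ v : ι → Θ, (∏ i, law (A i) (lab i) (v i)) * ψ v =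
      ∑ v : ι → Θ, (∑ y ∈ Fintype.piFinset A,
        (if (fun i => lab i (y i)) = v then (1 : ℝ) else 0) * ψ v) /
        ((Fintype.piFinset A).card : ℝ) := by
    refine Finset.sum_congr rfl ?_
    intro v _
    rw [h1 v, ← Finset.sum_mul]
    ring
  rw [h2, ← Finset.sum_div, Finset.sum_comm]
  unfold avg
  congr 1
  refine Finset.sum_congr rfl ?_
  intro y _
  rw [Finset.sum_eq_single (fun i => lab i (y i))]
  · simp
  · intro v _ hv
    rw [if_neg (fun h => hv h.symm)]
    simp
  · intro h
    exact absurd (Finset.mem_univ _) h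

lemma sum_prod {ι Θ : Type} [Fintype ι] [Fintype Θ] (w : ι → Θ → ℝ) :
    ∑ v : ι → Θ, ∏ i, w i (v i) = ∏ i, ∑ ϑ, w i ϑ := by
  rw [Finset.prod_univ_sum, Fintype.piFinset_univ]

theorem tv : TVStmt := by
  intro ι α Θ _ _ A B lab ψ hA hB hψ
  rw [push, push]
  set a : ι → Θ → ℝ := fun i => law (A i) (lab i) with ha
  set b : ι → Θ → ℝ := fun i => law (B i) (lab i) with hb
  have ha0 : ∀ i ϑ, 0 ≤ a i ϑ := fun i ϑ => law_nonneg _ _ _
  have hb0 : ∀ i ϑ, 0 ≤ b i ϑ := fun i ϑ => law_nonneg _ _ _
  have ha1 : ∀ i, ∑ ϑ, a i ϑ = 1 := fun i => law_sum _ (hA i) _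
  have hb1 : ∀ i, ∑ ϑ, b i ϑ = 1 := fun i => law_sum _ (hB i) _
  set w : Finset ι → ι → Θ → ℝ := fun S i ϑ => if i ∈ S then b i ϑ else a i ϑ with hw
  have hw0 : ∀ S i ϑ, 0 ≤ w S i ϑ := by
    intro S i ϑ
    simp only [hw]
    split_ifs
    · exact hb0 i ϑ
    · exact ha0 i ϑ
  have hw1 : ∀ S i, ∑ ϑ, w S i ϑ = 1 := by
    intro S i
    simp only [hw]
    split_ifs
    · exact hb1 i
    · exact ha1 i
  have key : ∀ S : Finset ι, |(∑ v : ι → Θ, (∏ i, a i (v i)) * ψ v) -
      ∑ v : ι → Θ, (∏ i, w S i (v i)) * ψ v| ≤ ∑ i ∈ S, ∑ ϑ, |a i ϑ - b i ϑ| := by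
    intro S
    induction S using Finset.induction_on with
    | empty =>
      simp [hw]
    | insert i S hi ih =>
      rw [Finset.sum_insert hi]
      have step : |(∑ v : ι → Θ, (∏ i, w S i (v i)) * ψ v) -
          ∑ v : ι → Θ, (∏ j, w (insert i S) j (v j)) * ψ v| ≤ ∑ ϑ, |a i ϑ - b i ϑ| := by
        rw [← Finset.sum_sub_distrib]
        refine le_trans (Finset.abs_sum_le_sum_abs _ _) ?_
        set w' : ι → Θ → ℝ := fun j ϑ => if j = i then |a i ϑ - b i ϑ| else w S j ϑ with hw'
        have hb' : ∀ v : ι → Θ, |(∏ i, w S i (v i)) * ψ v -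
            (∏ j, w (insert i S) j (v j)) * ψ v| ≤ ∏ j, w' j (v j) := by
          intro v
          rw [← sub_mul, abs_mul]
          have e1 : ∏ j, w S j (v j) = a i (v i) * ∏ j ∈ univ.erase i, w S j (v j) := by
            rw [← Finset.mul_prod_erase univ _ (Finset.mem_univ i)]
            simp [hw, hi]
          have e2 : ∏ j, w (insert i S) j (v j) =
              b i (v i) * ∏ j ∈ univ.erase i, w S j (v j) := by
            rw [← Finset.mul_prod_erase univ _ (Finset.mem_univ i)]
            congr 1
            · simp [hw]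
            · refine Finset.prod_congr rfl ?_
              intro j hj
              have : j ≠ i := Finset.ne_of_mem_erase hj
              simp [hw, this]
          have e3 : ∏ j, w' j (v j) =
              |a i (v i) - b i (v i)| * ∏ j ∈ univ.erase i, w S j (v j) := by
            rw [← Finset.mul_prod_erase univ _ (Finset.mem_univ i)]
            congr 1
            · simp [hw']
            · refine Finset.prod_congr rfl ?_
              intro j hj
              have : j ≠ i := Finset.ne_of_mem_erase hj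
              simp [hw', this]
          rw [e1, e2, e3, ← sub_mul, abs_mul]
          have hP : 0 ≤ ∏ j ∈ univ.erase i, w S j (v j) :=
            Finset.prod_nonneg (fun j _ => hw0 S j (v j))
          rw [abs_of_nonneg hP, abs_of_nonneg (hψ v).1]
          have := mul_nonneg (abs_nonneg (a i (v i) - b i (v i))) hP
          calc |a i (v i) - b i (v i)| * (∏ j ∈ univ.erase i, w S j (v j)) * ψ v
              ≤ |a i (v i) - b i (v i)| * (∏ j ∈ univ.erase i, w S j (v j)) * 1 :=
                mul_le_mul_of_nonneg_left (hψ v).2 this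
            _ = _ := by ring
        refine le_trans (Finset.sum_le_sum (fun v _ => hb' v)) ?_
        rw [sum_prod, ← Finset.mul_prod_erase univ _ (Finset.mem_univ i)]
        have e4 : ∏ j ∈ univ.erase i, ∑ ϑ, w' j ϑ = 1 := by
          apply Finset.prod_eq_one
          intro j hj
          have : j ≠ i := Finset.ne_of_mem_erase hj
          simp only [hw', this, if_false]
          exact hw1 S j
        rw [e4, mul_one]
        simp [hw']
      have tri := abs_sub_le (∑ v : ι → Θ, (∏ i, a i (v i)) * ψ v)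
        (∑ v : ι → Θ, (∏ i, w S i (v i)) * ψ v)
        (∑ v : ι → Θ, (∏ j, w (insert i S) j (v j)) * ψ v)
      linarith
  have hfin := key univ
  have e5 : ∀ v : ι → Θ, ∏ i, w univ i (v i) = ∏ i, b i (v i) := by
    intro v
    refine Finset.prod_congr rfl ?_
    intro i _
    simp [hw]
  simp only [e5] at hfin
  exact hfin

end Pool.Agent.Helper82.PU
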